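import Mathlib
import Pool.Agent.X18.Spread

/-!
# There is no balanced digraph with Laplacian spread strictly between `0` and `1`
-/

set_option autoImplicit false

namespace Pool.Agent.Results.MP_6838a0_co.NoSmallSpread

open Pool.Agent.X18.Spread

/-- No balanced digraph of order `n ≥ 2` has Laplacian spread strictly between `0` and `1`. -/
theorem result (n : ℕ) (hn : 2 ≤ n) (G : Digraph (Fin n)) (hG : IsBalanced G) :
    ¬ (0 < sp G ∧ sp G < 1) := by
  rintro ⟨h0, h1⟩
  rcases dichotomy G hG hn h1.le with h | ⟨-, -, h, -⟩
  · exact h0.ne' h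
  · exact absurd h (not_le.2 h1)

end Pool.Agent.Results.MP_6838a0_co.NoSmallSpread
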